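import Pool.Agent.W668.Uni.Stmts

/-!
# UNI-SMO: smoothness and dilation equivariance of `kE`, `kH`
-/

set_option autoImplicit false

open Set MeasureTheory
open scoped ContDiff Topology

namespace Pool.Agent.W995.Uni

open Pool.Agent.W668.Uni

noncomputable section

theorem norm_w_le : ‖(w : Y)‖ ≤ 1 := by
  refine (ContinuousMap.norm_le _ zero_le_one).2 fun z => ?_
  change ‖Real.sin z.2‖ ≤ 1
  rw [Real.norm_eq_abs]
  exact Real.abs_sin_le_one _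

theorem norm_c_le : ‖(c : Y)‖ ≤ 1 := by
  refine (ContinuousMap.norm_le _ zero_le_one).2 fun z => ?_
  change ‖Real.cos z.2‖ ≤ 1
  rw [Real.norm_eq_abs]
  exact Real.abs_cos_le_one _

theorem norm_w_mul_le (h : Y) : ‖w * h‖ ≤ ‖h‖ := by
  calc ‖w * h‖ ≤ ‖(w : Y)‖ * ‖h‖ := norm_mul_le _ _
    _ ≤ 1 * ‖h‖ := mul_le_mul_of_nonneg_right norm_w_le (norm_nonneg _)
    _ = ‖h‖ := one_mul _

theorem unit_one_add {h : Y} (hh : ‖h‖ < 1) : IsUnit (1 + h) := by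
  have := (isUnit_one_sub_of_norm_lt_one (x := -h) (by rwa [norm_neg]))
  rwa [sub_neg_eq_add] at this

theorem rho_unit {ε : ℝ} {h : Y} (hh : |ε| * ‖h‖ ≤ 1 / 4) : IsUnit (rho ε h) := by
  unfold rho
  apply unit_one_add
  rw [norm_smul, Real.norm_eq_abs]
  calc |ε| * ‖w * h‖ ≤ |ε| * ‖h‖ := mul_le_mul_of_nonneg_left (norm_w_mul_le h) (abs_nonneg _)
    _ ≤ 1 / 4 := hh
    _ < 1 := by norm_num

theorem norm_xi_le {ε : ℝ} {h : Y} (hh : |ε| * ‖h‖ ≤ 1 / 4) : |ε| * ‖xi ε h‖ ≤ 9 / 16 := by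
  unfold xi
  have h1 : ‖(2 : ℝ) • h + ε • (w * h ^ 2)‖ ≤ 2 * ‖h‖ + |ε| * ‖h‖ ^ 2 := by
    refine (norm_add_le _ _).trans ?_
    rw [norm_smul, norm_smul, Real.norm_eq_abs, Real.norm_eq_abs, abs_two]
    have h2 : ‖w * h ^ 2‖ ≤ ‖h‖ ^ 2 :=
      (norm_w_mul_le _).trans (norm_pow_le' h (by norm_num))
    have := mul_le_mul_of_nonneg_left h2 (abs_nonneg ε)
    linarith
  have h3 := mul_le_mul_of_nonneg_left h1 (abs_nonneg ε)
  have h4 : 0 ≤ |ε| * ‖h‖ := by positivity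
  nlinarith

theorem dd_unit {ε : ℝ} {h : Y} (hh : |ε| * ‖h‖ ≤ 1 / 4) : IsUnit (dd ε h) := by
  unfold dd
  apply unit_one_add
  rw [norm_smul, Real.norm_eq_abs]
  have h1 : ‖w ^ 3 * xi ε h‖ ≤ ‖xi ε h‖ := by
    have e : w ^ 3 * xi ε h = w * (w * (w * xi ε h)) := by ring
    rw [e]
    exact (norm_w_mul_le _).trans ((norm_w_mul_le _).trans (norm_w_mul_le _))
  calc |ε| * ‖w ^ 3 * xi ε h‖ ≤ |ε| * ‖xi ε h‖ := mul_le_mul_of_nonneg_left h1 (abs_nonneg _)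
    _ ≤ 9 / 16 := norm_xi_le hh
    _ < 1 := by norm_num

theorem dom_neg {e₀ M : ℝ} {p : ℝ × Y} (hp : p ∈ dom e₀ M) : ((-p.1, p.2) : ℝ × Y) ∈ dom e₀ M := by
  refine ⟨?_, hp.2⟩
  change |(-p.1)| < e₀
  rw [abs_neg]
  exact hp.1

theorem contDiff_exp_Y : ContDiff ℝ ∞ (NormedSpace.exp : Y → Y) := by
  rw [contDiff_iff_contDiffAt]
  intro x
  exact (NormedSpace.exp_analytic (𝕂 := ℝ) x).contDiffAt

section smooth

variable {O : Ops} {M e₀ : ℝ} {η : ℝ × Y → Y}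

theorem contDiffOn_fst' {s : Set (ℝ × Y)} : ContDiffOn ℝ ∞ (fun p : ℝ × Y => p.1) s :=
  contDiff_fst.contDiffOn

theorem contDiffOn_snd' {s : Set (ℝ × Y)} : ContDiffOn ℝ ∞ (fun p : ℝ × Y => p.2) s :=
  contDiff_snd.contDiffOn

theorem smooth_rho {s : Set (ℝ × Y)} {e : ℝ × Y → ℝ} {f : ℝ × Y → Y}
    (he : ContDiffOn ℝ ∞ e s) (hf : ContDiffOn ℝ ∞ f s) :
    ContDiffOn ℝ ∞ (fun p => rho (e p) (f p)) s := by
  unfold rho
  exact contDiffOn_const.add (he.smul (contDiffOn_const.mul hf))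

theorem smooth_xi {s : Set (ℝ × Y)} {e : ℝ × Y → ℝ} {f : ℝ × Y → Y}
    (he : ContDiffOn ℝ ∞ e s) (hf : ContDiffOn ℝ ∞ f s) :
    ContDiffOn ℝ ∞ (fun p => xi (e p) (f p)) s := by
  unfold xi
  exact (hf.const_smul (2 : ℝ)).add (he.smul (contDiffOn_const.mul (hf.pow 2)))

theorem smooth_dd {s : Set (ℝ × Y)} {e : ℝ × Y → ℝ} {f : ℝ × Y → Y}
    (he : ContDiffOn ℝ ∞ e s) (hf : ContDiffOn ℝ ∞ f s) :
    ContDiffOn ℝ ∞ (fun p => dd (e p) (f p)) s := by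
  unfold dd
  exact contDiffOn_const.add (he.smul (contDiffOn_const.mul (smooth_xi he hf)))

theorem smooth_inverse {s : Set (ℝ × Y)} {f : ℝ × Y → Y}
    (hf : ContDiffOn ℝ ∞ f s) (hu : ∀ p ∈ s, IsUnit (f p)) :
    ContDiffOn ℝ ∞ (fun p => Ring.inverse (f p)) s := by
  intro p hp
  obtain ⟨u, hu'⟩ := hu p hp
  have h1 : ContDiffAt ℝ ∞ Ring.inverse (f p) := by
    rw [← hu']
    exact contDiffAt_ringInverse ℝ u
  exact h1.comp_contDiffWithinAt p (hf p hp)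

theorem smooth_rhoi {s : Set (ℝ × Y)} {e : ℝ × Y → ℝ} {f : ℝ × Y → Y}
    (he : ContDiffOn ℝ ∞ e s) (hf : ContDiffOn ℝ ∞ f s)
    (hb : ∀ p ∈ s, |e p| * ‖f p‖ ≤ 1 / 4) :
    ContDiffOn ℝ ∞ (fun p => rhoi (e p) (f p)) s := by
  unfold rhoi
  exact smooth_inverse (smooth_rho he hf) fun p hp => rho_unit (hb p hp)

theorem smooth_di {s : Set (ℝ × Y)} {e : ℝ × Y → ℝ} {f : ℝ × Y → Y}
    (he : ContDiffOn ℝ ∞ e s) (hf : ContDiffOn ℝ ∞ f s)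
    (hb : ∀ p ∈ s, |e p| * ‖f p‖ ≤ 1 / 4) :
    ContDiffOn ℝ ∞ (fun p => di (e p) (f p)) s := by
  unfold di
  exact smooth_inverse (smooth_dd he hf) fun p hp => dd_unit (hb p hp)

theorem smooth_Gam {s : Set (ℝ × Y)} {e : ℝ × Y → ℝ} {F f : ℝ × Y → Y}
    (he : ContDiffOn ℝ ∞ e s) (hF : ContDiffOn ℝ ∞ F s) (hf : ContDiffOn ℝ ∞ f s)
    (hb : ∀ p ∈ s, |e p| * ‖f p‖ ≤ 1 / 4) :
    ContDiffOn ℝ ∞ (fun p => Gam O (e p) (F p) (f p)) s := by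
  unfold Gam
  exact he.smul (O.J.contDiff.comp_contDiffOn (hF.mul (smooth_rhoi he hf hb)))

theorem smooth_EE {s : Set (ℝ × Y)} {e : ℝ × Y → ℝ} {F f : ℝ × Y → Y}
    (he : ContDiffOn ℝ ∞ e s) (hF : ContDiffOn ℝ ∞ F s) (hf : ContDiffOn ℝ ∞ f s)
    (hb : ∀ p ∈ s, |e p| * ‖f p‖ ≤ 1 / 4) :
    ContDiffOn ℝ ∞ (fun p => EE O (e p) (F p) (f p)) s := by
  unfold EE
  exact contDiff_exp_Y.comp_contDiffOn (smooth_Gam he hF hf hb)

theorem smooth_Ei {s : Set (ℝ × Y)} {e : ℝ × Y → ℝ} {F f : ℝ × Y → Y}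
    (he : ContDiffOn ℝ ∞ e s) (hF : ContDiffOn ℝ ∞ F s) (hf : ContDiffOn ℝ ∞ f s)
    (hb : ∀ p ∈ s, |e p| * ‖f p‖ ≤ 1 / 4) :
    ContDiffOn ℝ ∞ (fun p => Ei O (e p) (F p) (f p)) s := by
  unfold Ei
  exact contDiff_exp_Y.comp_contDiffOn (smooth_Gam he hF hf hb).neg

theorem smooth_KK {s : Set (ℝ × Y)} {e : ℝ × Y → ℝ} {F f : ℝ × Y → Y}
    (he : ContDiffOn ℝ ∞ e s) (hF : ContDiffOn ℝ ∞ F s) (hf : ContDiffOn ℝ ∞ f s)
    (hb : ∀ p ∈ s, |e p| * ‖f p‖ ≤ 1 / 4) :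
    ContDiffOn ℝ ∞ (fun p => KK O (e p) (F p) (f p)) s := by
  unfold KK
  refine O.K.contDiff.comp_contDiffOn ?_
  exact (((hF.mul contDiffOn_const).mul contDiffOn_const).mul
    ((smooth_di he hf hb).pow 2)).mul (smooth_Ei he hF hf hb)

theorem eta_neg_smooth (h : EtaSol O M e₀ η) :
    ContDiffOn ℝ ∞ (fun p : ℝ × Y => η (-p.1, p.2)) (dom e₀ M) := by
  refine h.smooth.comp (f := fun p : ℝ × Y => ((-p.1, p.2) : ℝ × Y)) ?_ fun p hp => dom_neg hp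
  exact (contDiffOn_fst'.neg).prodMk contDiffOn_snd'

theorem bound_neg (h : EtaSol O M e₀ η) :
    ∀ p ∈ dom e₀ M, |(-p.1)| * ‖η (-p.1, p.2)‖ ≤ 1 / 4 :=
  fun p hp => h.bound _ (dom_neg hp)

theorem smooth_kE (h : EtaSol O M e₀ η) : ContDiffOn ℝ ∞ (kE η) (dom e₀ M) := by
  have a1 : ContDiffOn ℝ ∞ (fun p : ℝ × Y => p.1) (dom e₀ M) := contDiffOn_fst'
  have a2 : ContDiffOn ℝ ∞ (fun p : ℝ × Y => -p.1) (dom e₀ M) := a1.neg
  have b1 := h.smooth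
  have b2 := eta_neg_smooth h
  have c1 := h.bound
  have c2 := bound_neg h
  unfold kE kapE
  exact ((((contDiffOn_const.mul ((smooth_xi a1 b1).add (smooth_xi a2 b2))).mul
    (smooth_di a1 b1 c1)).mul (smooth_di a2 b2 c2))).neg

theorem smooth_kH (h : EtaSol O M e₀ η) : ContDiffOn ℝ ∞ (kH O η) (dom e₀ M) := by
  have a1 : ContDiffOn ℝ ∞ (fun p : ℝ × Y => p.1) (dom e₀ M) := contDiffOn_fst'
  have a2 : ContDiffOn ℝ ∞ (fun p : ℝ × Y => -p.1) (dom e₀ M) := a1.neg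
  have aF : ContDiffOn ℝ ∞ (fun p : ℝ × Y => p.2) (dom e₀ M) := contDiffOn_snd'
  have b1 := h.smooth
  have b2 := eta_neg_smooth h
  have c1 := h.bound
  have c2 := bound_neg h
  have hk := smooth_kE h
  unfold kE at hk
  unfold kH kapH
  refine hk.add (ContDiffOn.const_smul (2 : ℝ) ?_)
  exact (((smooth_rho a1 b1).mul (smooth_EE a1 aF b1 c1)).mul (smooth_KK a1 aF b1 c1)).add
    (((smooth_rho a2 b2).mul (smooth_EE a2 aF b2 c2)).mul (smooth_KK a2 aF b2 c2))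

end smooth

/-! ### equivariance -/

section equi

theorem τY_apply (a : ℝ) (h : Y) (x : I1) (t : Th) : τY a h (x, t) = h (dil a x, t) := rfl

/-- the dilation as a ring homomorphism -/
def τR (a : ℝ) : Y →+* Y where
  toFun := τY a
  map_one' := rfl
  map_mul' := fun _ _ => rfl
  map_zero' := rfl
  map_add' := fun _ _ => rfl

theorem τY_mul (a : ℝ) (h k : Y) : τY a (h * k) = τY a h * τY a k := rfl
theorem τY_one (a : ℝ) : τY a 1 = 1 := rfl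
theorem τY_w (a : ℝ) : τY a w = w := rfl
theorem τY_c (a : ℝ) : τY a c = c := rfl
theorem τY_pow (a : ℝ) (h : Y) (n : ℕ) : τY a (h ^ n) = τY a h ^ n := (τR a).map_pow h n

theorem τY_norm (a : ℝ) (h : Y) : ‖τY a h‖ ≤ ‖h‖ := by
  refine (ContinuousMap.norm_le _ (norm_nonneg _)).2 fun z => ?_
  exact ContinuousMap.norm_coe_le_norm h _

theorem evY_coe (h : Y) (x : I1) (t : Th) : evY h x t = h (x, t) := by
  unfold evY
  rw [Set.projIcc_val, Set.projIcc_val]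

theorem evY_τY (a : ℝ) (h : Y) (x : I1) (r : ℝ) : evY (τY a h) x r = evY h (dil a x) r := by
  unfold evY
  rw [Set.projIcc_val, Set.projIcc_val]
  rfl

theorem τY_J (O : Ops) (a : ℝ) (h : Y) : τY a (O.J h) = O.J (τY a h) := by
  ext ⟨x, t⟩
  rw [τY_apply, ← evY_coe, ← evY_coe, O.J_ev _ _ _ t.2.1 t.2.2, O.J_ev _ _ _ t.2.1 t.2.2]
  refine intervalIntegral.integral_congr fun r _ => ?_
  exact (evY_τY a h x r).symm

theorem τY_K (O : Ops) (a : ℝ) (h : Y) : τY a (O.K h) = O.K (τY a h) := by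
  ext ⟨x, t⟩
  rw [τY_apply, ← evY_coe, ← evY_coe, O.K_ev _ _ _ t.2.1 t.2.2, O.K_ev _ _ _ t.2.1 t.2.2]
  refine intervalIntegral.integral_congr fun r _ => ?_
  exact (evY_τY a h x r).symm

theorem τY_S3 (O : Ops) (a : ℝ) (h : Y) : τY a (O.S3 h) = O.S3 (τY a h) := by
  ext ⟨x, t⟩
  have hc1 : Continuous (fun r : ℝ => evY (τY a (O.S3 h)) x r) :=
    (continuous_evY _).comp (continuous_const.prodMk continuous_id)
  have hc2 : Continuous (fun r : ℝ => evY (O.S3 (τY a h)) x r) :=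
    (continuous_evY _).comp (continuous_const.prodMk continuous_id)
  have hE : Set.EqOn (fun r : ℝ => evY (τY a (O.S3 h)) x r)
      (fun r : ℝ => evY (O.S3 (τY a h)) x r) (Ioo 0 (Real.pi / 2)) := by
    intro r hr
    have hs : 0 < Real.sin r := Real.sin_pos_of_pos_of_lt_pi hr.1 (by linarith [hr.2, Real.pi_pos])
    have h1 := O.S3_ev h (dil a x) r hr.1.le hr.2.le
    have h2 := O.S3_ev (τY a h) x r hr.1.le hr.2.le
    have h3 : (∫ s in (0 : ℝ)..r, Real.sin s ^ 2 * evY (τY a h) x s)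
        = ∫ s in (0 : ℝ)..r, Real.sin s ^ 2 * evY h (dil a x) s := by
      refine intervalIntegral.integral_congr fun s _ => ?_
      rw [evY_τY]
    rw [h3, ← h1] at h2
    change evY (τY a (O.S3 h)) x r = evY (O.S3 (τY a h)) x r
    rw [evY_τY]
    exact (mul_left_cancel₀ (pow_pos hs 3).ne' h2).symm
  have hcl := hE.closure hc1 hc2
  rw [closure_Ioo (by positivity : (0 : ℝ) ≠ Real.pi / 2)] at hcl
  have := hcl t.2
  change evY (τY a (O.S3 h)) x t = evY (O.S3 (τY a h)) x t at this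
  rwa [evY_coe, evY_coe] at this

theorem τY_inverse (a : ℝ) {h : Y} (hu : IsUnit h) :
    τY a (Ring.inverse h) = Ring.inverse (τY a h) := by
  have h1 : τY a (Ring.inverse h) * τY a h = 1 := by
    rw [← τY_mul, Ring.inverse_mul_cancel _ hu, τY_one]
  have hu' : IsUnit (τY a h) := hu.map (τR a)
  calc τY a (Ring.inverse h) = τY a (Ring.inverse h) * (τY a h * Ring.inverse (τY a h)) := by
        rw [Ring.mul_inverse_cancel _ hu', mul_one]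
    _ = (τY a (Ring.inverse h) * τY a h) * Ring.inverse (τY a h) := (mul_assoc _ _ _).symm
    _ = Ring.inverse (τY a h) := by rw [h1, one_mul]

theorem τY_exp (a : ℝ) (h : Y) : τY a (NormedSpace.exp h) = NormedSpace.exp (τY a h) := by
  have := NormedSpace.map_exp (τR a) (τY a).continuous h
  exact this

variable {O : Ops} {M e₀ : ℝ} {η : ℝ × Y → Y}

theorem τY_dom (a : ℝ) {p : ℝ × Y} (hp : p ∈ dom e₀ M) : ((p.1, τY a p.2) : ℝ × Y) ∈ dom e₀ M :=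
  ⟨hp.1, lt_of_le_of_lt (τY_norm a p.2) hp.2⟩

theorem τY_EtaEq (a : ℝ) {ε : ℝ} {F h : Y} (H : EtaEq O ε F h) :
    EtaEq O ε (τY a F) (τY a h) := by
  unfold EtaEq at H ⊢
  have h1 := congrArg (τY a) H
  rw [map_sub, map_neg, τY_S3, map_smul, τY_mul, τY_mul, τY_pow, map_add, map_smul, τY_mul,
    τY_one, τY_w] at h1
  exact h1

theorem τY_eta (h : EtaSol O M e₀ η) {p : ℝ × Y} (hp : p ∈ dom e₀ M) (a : ℝ) :
    η (p.1, τY a p.2) = τY a (η p) := by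
  refine (h.uniq _ (τY_dom a hp) (τY a (η p)) ?_ (τY_EtaEq a (h.eqn p hp))).symm
  have h1 := h.bound p hp
  have h2 := mul_le_mul_of_nonneg_left (τY_norm a (η p)) (abs_nonneg p.1)
  change |p.1| * ‖τY a (η p)‖ ≤ 1 / 2
  linarith

theorem τY_rho (a ε : ℝ) (h : Y) : τY a (rho ε h) = rho ε (τY a h) := by
  unfold rho
  rw [map_add, map_smul, τY_mul, τY_one, τY_w]

theorem τY_xi (a ε : ℝ) (h : Y) : τY a (xi ε h) = xi ε (τY a h) := by
  unfold xi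
  rw [map_add, map_smul, map_smul, τY_mul, τY_pow, τY_w]

theorem τY_dd (a ε : ℝ) (h : Y) : τY a (dd ε h) = dd ε (τY a h) := by
  unfold dd
  rw [map_add, map_smul, τY_mul, τY_pow, τY_one, τY_w, τY_xi]

theorem τY_rhoi (a : ℝ) {ε : ℝ} {h : Y} (hh : |ε| * ‖h‖ ≤ 1 / 4) :
    τY a (rhoi ε h) = rhoi ε (τY a h) := by
  unfold rhoi
  rw [τY_inverse a (rho_unit hh), τY_rho]

theorem τY_di (a : ℝ) {ε : ℝ} {h : Y} (hh : |ε| * ‖h‖ ≤ 1 / 4) :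
    τY a (di ε h) = di ε (τY a h) := by
  unfold di
  rw [τY_inverse a (dd_unit hh), τY_dd]

theorem τY_Gam (a : ℝ) {ε : ℝ} {F h : Y} (hh : |ε| * ‖h‖ ≤ 1 / 4) :
    τY a (Gam O ε F h) = Gam O ε (τY a F) (τY a h) := by
  unfold Gam
  rw [map_smul, τY_J, τY_mul, τY_rhoi a hh]

theorem τY_EE (a : ℝ) {ε : ℝ} {F h : Y} (hh : |ε| * ‖h‖ ≤ 1 / 4) :
    τY a (EE O ε F h) = EE O ε (τY a F) (τY a h) := by
  unfold EE
  rw [τY_exp, τY_Gam a hh]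

theorem τY_Ei (a : ℝ) {ε : ℝ} {F h : Y} (hh : |ε| * ‖h‖ ≤ 1 / 4) :
    τY a (Ei O ε F h) = Ei O ε (τY a F) (τY a h) := by
  unfold Ei
  rw [τY_exp, map_neg, τY_Gam a hh]

theorem τY_KK (a : ℝ) {ε : ℝ} {F h : Y} (hh : |ε| * ‖h‖ ≤ 1 / 4) :
    τY a (KK O ε F h) = KK O ε (τY a F) (τY a h) := by
  unfold KK
  rw [τY_K, τY_mul, τY_mul, τY_mul, τY_mul, τY_pow, τY_w, τY_c, τY_di a hh, τY_Ei a hh]

theorem τY_kapE (a : ℝ) {ε : ℝ} {hp hm : Y} (h1 : |ε| * ‖hp‖ ≤ 1 / 4)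
    (h2 : |(-ε)| * ‖hm‖ ≤ 1 / 4) :
    τY a (kapE ε hp hm) = kapE ε (τY a hp) (τY a hm) := by
  unfold kapE
  rw [map_neg, τY_mul, τY_mul, τY_mul, τY_mul, τY_pow, τY_w, τY_c, map_add, τY_xi, τY_xi,
    τY_di a h1, τY_di a h2]

theorem τY_kapH (a : ℝ) {ε : ℝ} {F hp hm : Y} (h1 : |ε| * ‖hp‖ ≤ 1 / 4)
    (h2 : |(-ε)| * ‖hm‖ ≤ 1 / 4) :
    τY a (kapH O ε F hp hm) = kapH O ε (τY a F) (τY a hp) (τY a hm) := by
  unfold kapH
  rw [map_add, τY_kapE a h1 h2, map_smul, map_add, τY_mul, τY_mul, τY_mul, τY_mul, τY_rho,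
    τY_rho, τY_EE a h1, τY_EE a h2, τY_KK a h1, τY_KK a h2]

end equi

theorem smo : P_smo := by
  intro O M e₀ η h
  refine ⟨smooth_kE h, smooth_kH h, fun p hp a => ?_⟩
  have e1 := τY_eta h hp a
  have e2 : η (-p.1, τY a p.2) = τY a (η (-p.1, p.2)) := τY_eta h (dom_neg hp) a
  have b1 := h.bound p hp
  have b2 := bound_neg h p hp
  refine ⟨e1, ?_, ?_⟩
  · change kapE p.1 (η (p.1, τY a p.2)) (η (-p.1, τY a p.2))
      = τY a (kapE p.1 (η p) (η (-p.1, p.2)))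
    rw [τY_kapE a b1 b2, e1, e2]
  · change kapH O p.1 (τY a p.2) (η (p.1, τY a p.2)) (η (-p.1, τY a p.2))
      = τY a (kapH O p.1 p.2 (η p) (η (-p.1, p.2)))
    rw [τY_kapH a b1 b2, e1, e2]

end

end Pool.Agent.W995.Uni
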